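import Pool.Agent.Lib.helper5.IenvU

open Set H5U

namespace Pool.Agent.Results.MP_a5b52c_an.NotDense

/-- The union of the (I)-envelopes of the bounded parts of `A`. -/
def Ienvb {X : Type} [NormedAddCommGroup X] [NormedSpace ℝ X] (A : Set (StrongDual ℝ X)) :
    Set (StrongDual ℝ X) :=
  ⋃ n : ℕ, Ienv (A ∩ Metric.closedBall 0 n)

/-- `Ienvb A` need not be norm dense in `Ienv A`. -/
theorem result : ∃ (X : Type) (_ : NormedAddCommGroup X) (_ : NormedSpace ℝ X),
    CompleteSpace X ∧ ∃ A : Set (StrongDual ℝ X), ¬ Ienv A ⊆ closure (Ienvb A) := by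
  obtain ⟨W, _, _, w⟩ := exW
  obtain ⟨X, _, _, a, P, Q, _, e⟩ := ex W
  refine ⟨X, _, _, inferInstance, {c | ∃ r t, 1 ≤ r ∧ c = a r t}, fun h => ?_⟩
  obtain ⟨ξ, k, l⟩ := Metric.mem_closure_iff.1 (h (a := 0) fun A hA => isClosed_closure.closure_subset
    (Metric.mem_closure_iff.2 fun ε hε => by
      have r0 : 0 < 1 + ε⁻¹ := by positivity
      obtain ⟨k, hk⟩ := not_forall.1 fun n : ∀ k, {t | a (1 + ε⁻¹) t ∈ A k}.Countable =>
        not_countable_univ ((countable_iUnion n).mono fun t _ => by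
          simpa using hA.ge ⟨_, t, le_add_of_nonneg_right (by positivity), rfl⟩)
      obtain ⟨ζ, z1, z2⟩ := e.near r0 hk
      exact ⟨ζ, wco_K A k z1, by
        rw [dist_zero_left]
        exact z2.trans_lt ((inv_lt_comm₀ r0 hε).2 (lt_one_add _))⟩)) 1 one_pos
  obtain ⟨n, k⟩ := mem_iUnion.1 k
  rw [dist_zero_left] at l
  refine l.not_ge (e.far w (R := n) ?_ k)
  rintro _ ⟨⟨r, t, r1, rfl⟩, m⟩
  have := (le_abs_self _).trans (((a r t).le_opNorm (P {t})).trans ((mul_le_of_le_one_right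
    (norm_nonneg _) (e.np _)).trans (mem_closedBall_zero_iff.1 m)))
  rw [e.p _ _ _ (countable_singleton t)] at this
  exact ⟨r, t, r1, by simpa using this, rfl⟩

end Pool.Agent.Results.MP_a5b52c_an.NotDense
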